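import Mathlib
import Pool.Agent.H75.Engel3

/-! In characteristic three there is an anticommutative 3-Engel algebra that is not locally
nilpotent. -/

set_option autoImplicit false

open Pool.Agent.H75.Kokoris

universe u

theorem Pool.Agent.Results.MP_1664c7_al.CharThree.result (F : Type u) [Field F] [CharP F 3] :
    ∃ (A : Type u) (_ : NonUnitalNonAssocRing A) (_ : Module F A) (_ : IsScalarTower F A A)
      (_ : SMulCommClass F A A),
      (∀ x : A, x * x = 0) ∧ (∀ x y : A, x * y * y * y = 0) ∧ ¬ LocNil F A :=
  ⟨Pool.Agent.H75.Engel3.Alg F, inferInstance, inferInstance, inferInstance, inferInstance,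
    Pool.Agent.H75.Engel3.mul_self, Pool.Agent.H75.Engel3.engel, Pool.Agent.H75.Engel3.not_locNil⟩
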